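import Mathlib

set_option autoImplicit false

namespace Pool.Agent.Results.MP_aca66f_gt.Main

open Set Filter Topology Metric unitInterval

def FGd {X : Type} [TopologicalSpace X] (A : Set X) : Prop :=
  ∃ f : ℕ → X → I, (∀ n, Continuous (f n)) ∧ A = ⋂ n, f n ⁻¹' Ioc 0 1

def FFs {X : Type} [TopologicalSpace X] (A : Set X) : Prop :=
  ∃ f : ℕ → X → I, (∀ n, Continuous (f n)) ∧ A = ⋃ n, f n ⁻¹' {0}

def M : Type := ℝ

instance : TopologicalSpace M where
  IsOpen U := ∀ q : ℚ, (q : ℝ) ∈ U → ∃ r > 0, ball (q : ℝ) r ⊆ U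
  isOpen_univ _ _ := ⟨1, one_pos, subset_univ _⟩
  isOpen_inter U V h h' q hq := by
    obtain ⟨r, h1, h2⟩ := h q hq.1
    obtain ⟨s, h3, h4⟩ := h' q hq.2
    exact ⟨min r s, lt_min h1 h3, subset_inter ((ball_subset_ball (min_le_left r s)).trans h2)
      ((ball_subset_ball (min_le_right r s)).trans h4)⟩
  isOpen_sUnion S h := fun q ⟨U, h1, h2⟩ =>
    (h U h1 q h2).imp fun _ h => ⟨h.1, h.2.trans (subset_sUnion_of_mem h1)⟩

def e : M → ℝ := id

lemma ce : Continuous e := ⟨fun _ h q hq => Metric.isOpen_iff.1 h q hq⟩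

instance : T4Space M :=
  have : T1Space M := t1Space_of_injective_of_continuous (f := e) Function.injective_id ce
  have : NormalSpace M := ⟨fun A B hA hB h => by
    have k {C : Set M} (hC : IsClosed C) (q : ℚ) : ∃ r > 0, (q : ℝ) ∉ C → ball (q : ℝ) r ⊆ (Cᶜ :) := by
      by_cases h : (q : ℝ) ∈ C
      exacts [⟨1, one_pos, fun k => (k h).elim⟩, (hC.1 q h).imp fun _ h => ⟨h.1, fun _ => h.2⟩]
    choose r r1 r2 using k hB
    choose s s1 s2 using k hA
    have o (C : Set M) (t : ℚ → ℝ) (ht : ∀ q, 0 < t q) :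
        IsOpen (X := M) (C ∪ (⋃ q ∈ {q : ℚ | (q : ℝ) ∈ C}, ball (q : ℝ) (t q / 2) : Set ℝ)) := fun p hp => by
      obtain ⟨ε, h1, h2⟩ := Metric.isOpen_iff.1 (isOpen_biUnion fun q _ => isOpen_ball) (p : ℝ)
        (hp.elim (fun h => mem_biUnion (s := {q : ℚ | (q : ℝ) ∈ C})
          (t := fun q => ball (q : ℝ) (t q / 2)) h (mem_ball_self (half_pos (ht p)))) id)
      exact ⟨ε, h1, h2.trans subset_union_right⟩
    refine ⟨_, _, o A r r1, o B s s1, subset_union_left, subset_union_left, disjoint_left.2 ?_⟩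
    rintro x (h1 | h1) (h2 | h2)
    · exact disjoint_left.1 h h1 h2
    · obtain ⟨q, h3, h4⟩ := mem_iUnion₂.1 h2
      exact s2 q (disjoint_right.1 h h3) (ball_subset_ball (half_le_self (s1 q).le) h4) h1
    · obtain ⟨q, h3, h4⟩ := mem_iUnion₂.1 h1
      exact r2 q (disjoint_left.1 h h3) (ball_subset_ball (half_le_self (r1 q).le) h4) h2
    obtain ⟨p, h3, h4⟩ := mem_iUnion₂.1 h1
    obtain ⟨q, h5, h6⟩ := mem_iUnion₂.1 h2
    have h7 : ¬ dist (q : ℝ) p < r p := fun k => r2 p (disjoint_left.1 h h3) k h5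
    have h8 : ¬ dist (p : ℝ) q < s q := fun k => s2 q (disjoint_right.1 h h5) k h3
    have h9 := dist_triangle_left (p : ℝ) q x
    rw [dist_comm] at h7
    linarith [(mem_ball (α := ℝ)).1 h4, (mem_ball (α := ℝ)).1 h6]⟩
  {}

lemma vitali : ∃ V : Set ℝ, ¬ IsMeagre V ∧
    ∀ U, IsOpen U → U.Nonempty → ¬ IsMeagre (U \ V) := by
  let H := (Rat.castHom ℝ).toAddMonoidHom.range
  let V := range fun c : ℝ ⧸ H => c.out
  have t (A : Set ℝ) (hA : IsMeagre A) (q : ℝ) : IsMeagre ((· + q) ⁻¹' A) :=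
    hA.preimage_of_isOpenMap (continuous_add_const q) (isOpenMap_add_right q)
  refine ⟨V, fun h => not_isMeagre_of_isOpen isOpen_univ univ_nonempty
    ((isMeagre_iUnion fun q : ℚ => t V h q).mono fun x _ => ?_), fun U h1 ⟨x, hx⟩ h2 => ?_⟩
  · obtain ⟨⟨_, q, rfl⟩, hq⟩ := QuotientAddGroup.mk_out_eq_mul H x
    exact mem_iUnion.2 ⟨q, _, hq⟩
  obtain ⟨r, h3, h4⟩ := Metric.isOpen_iff.1 h1 x hx
  obtain ⟨q, h5, h6⟩ := exists_rat_btwn h3
  refine not_isMeagre_of_isOpen (h1.inter (h1.preimage (continuous_add_const (q : ℝ))))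
    ⟨x, hx, h4 (by rwa [mem_ball, Real.dist_eq, add_sub_cancel_left, abs_of_pos h5])⟩ ((h2.union (t _ h2 q)).mono fun y hy => ?_)
  by_contra k
  simp only [mem_union, mem_preimage, Set.mem_sdiff, not_or, not_and, not_not] at k
  obtain ⟨a, ha⟩ := k.1 hy.1
  obtain ⟨b, hb⟩ := k.2 hy.2
  have : a = b := by
    rw [← a.out_eq, ← b.out_eq]
    exact QuotientAddGroup.leftRel_apply.2 ⟨q, by simp only at ha hb; rw [ha, hb]; simp⟩ |> Quotient.sound
  subst this
  exact h5.ne' (by simpa using hb.symm.trans ha)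

theorem result : ∃ (X : Type) (_ : TopologicalSpace X), T4Space X ∧ ∃ E : Set X, FGd E ∧
    ¬ ((∀ A : Set E, FFs A → ∃ B : Set X, FFs B ∧ A = (↑) ⁻¹' B) ∧
      ∀ A : Set E, FGd A → ∃ B : Set X, FGd B ∧ A = (↑) ⁻¹' B) := by
  classical
  obtain ⟨g, hg⟩ := exists_surjective_nat ℚ
  refine ⟨M, inferInstance, inferInstance, {x | ∀ q : ℚ, e x ≠ q},
    ⟨fun n x => projIcc 0 1 zero_le_one (dist (e x) (g n)),
      fun n => continuous_projIcc.comp (ce.dist continuous_const), Set.ext fun x => ?_⟩, fun h => ?_⟩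
  · simp [hg.forall, pos_iff_ne_zero, projIcc_eq_zero, unitInterval.le_one']
  obtain ⟨V, h1, h2⟩ := vitali
  have : DiscreteTopology {x | ∀ q : ℚ, e x ≠ q} := discreteTopology_iff_isOpen_singleton.2 fun x =>
    ⟨{x.1}, fun q hq => (x.2 q (Eq.symm hq)).elim, Set.ext fun _ => Subtype.val_inj⟩
  obtain ⟨_, ⟨f, h3, rfl⟩, h4⟩ := h.1 {x | e x ∈ V} ⟨fun _ x => if e x ∈ V then 0 else 1,
    fun _ => continuous_of_discreteTopology, Set.ext fun x => by simp⟩
  have h5 (x : ℝ) (hx : x ∉ range ((↑) : ℚ → ℝ)) : x ∈ V ↔ ∃ n, f n x = 0 :=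
    (Set.ext_iff.1 h4 ⟨x, fun q h => hx ⟨q, h.symm⟩⟩).trans mem_iUnion
  have h6 : IsMeagre (range ((↑) : ℚ → ℝ)) := by
    rw [← iUnion_singleton_eq_range]
    exact isMeagre_iUnion fun q => (isClosed_singleton.isNowhereDense_iff.2 (by simp)).isMeagre
  refine h1 ((h6.union (isMeagre_iUnion (f := fun n => {x : ℝ | f n x = 0}) fun n => ?_)).mono
    fun x hx => ?_)
  swap
  · exact (em _).imp_right fun k => mem_iUnion.2 ((h5 x k).1 hx)
  refine IsNowhereDense.isMeagre (by_contra fun k => h2 _ isOpen_interior (nonempty_iff_ne_empty.2 k) ?_)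
  let O (m : ℕ) := interior {x : ℝ | (f n x : ℝ) < 1 / (m + 1)}
  refine (h6.union (isMeagre_iUnion (f := fun m => interior (closure {x : ℝ | f n x = 0}) \ O m)
    fun m => IsNowhereDense.isMeagre (by_contra fun k => ?_))).mono fun x hx => ?_
  swap
  · exact (em _).imp_right fun k => by_contra fun k' => hx.2 ((h5 x k).2 ⟨n, Subtype.ext
        ((f n x).2.1.antisymm' (ge_of_tendsto' tendsto_one_div_add_atTop_nhds_zero_nat fun m =>
          le_of_lt (interior_subset (s := {x : ℝ | (f n x : ℝ) < 1 / (m + 1)})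
            (by_contra fun k => k' (mem_iUnion.2 ⟨m, hx.1, k⟩)))))⟩)
  obtain ⟨y, y1, y2⟩ := mem_closure_iff.1 (interior_subset (nonempty_iff_ne_empty.2 k).some_mem) _
    isOpen_interior (nonempty_iff_ne_empty.2 k).some_mem
  obtain ⟨q, q1, q2⟩ := Rat.denseRange_cast.exists_mem_open (isOpen_interior.inter isOpen_interior)
    ⟨y, y1, y2.1⟩
  have h7 : f n (q : ℝ) = 0 := by_contra fun k => by
    obtain ⟨r, r1, r2⟩ := ((h3 n).isOpen_preimage _ isOpen_compl_singleton) q k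
    obtain ⟨z, z1, z2⟩ := mem_closure_iff.1 (interior_subset q2) _ isOpen_ball (mem_ball_self r1)
    exact r2 z1 z2
  obtain ⟨r, r1, r2⟩ := (isOpen_lt (continuous_subtype_val.comp (h3 n))
    (continuous_const (y := (1 / (m + 1) : ℝ)))) q
      (show (f n (q : ℝ) : ℝ) < _ from h7 ▸ Nat.one_div_pos_of_nat)
  obtain ⟨z, z1, z2⟩ := mem_closure_iff.1 (interior_subset q1) _ isOpen_ball (mem_ball_self r1)
  exact z2.2 (interior_maximal r2 isOpen_ball z1)

end Pool.Agent.Results.MP_aca66f_gt.Main
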